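import Pool.Agent.U187.NS.Link

/-! The spectrum of a variety on the newforms; products with varieties with modular Albanese variety. -/

set_option autoImplicit false

namespace Pool.Agent.U187.NS

open Complex Filter Topology NumberField IsDedekindDomain Polynomial CongruenceSubgroup
open scoped MatrixGroups
open Pool.Agent.W540.BE Pool.Agent.W353.L1 Pool.Agent.W401.Cheb
open Pool.Agent.H341R2 (lam lam_tendsto)
open Pool.Agent.H921R2.TatePole (kerPrime C0)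
open Pool.Agent.W353.PV (Eig alp tF pick_spec lim_ord)
open Pool.Agent.W353.EF (IsFrobenius LFun size HasOrder)
open Pool.Agent.Y722.EP (size_plain EP_fin prod_unique eig_of half_two nm_w nm_h)
open Pool.Agent.Y722.RS (rc tt rc_eq)
open Pool.Agent.W165.RS (ac)
open Pool.Agent.U187.MF (IsNewforms)

section
variable {K : Type} [Field K] [NumberField K] {Ω : Type} {L : Ω → ℕ}
  {f : ∀ x, CuspForm (Gamma0 (L x) : Subgroup (GL (Fin 2) ℝ)) 2} {Y Z : VarK K}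

/-- sums over equal multisets -/
theorem sum_unique {n : ℕ} {X : Set (MvPolynomial (Fin n) (𝓞 K))} {d i N : ℕ} (hi : i ≤ 2 * d)
    {v : HeightOneSpectrum (𝓞 K)} {α : Fin N → ℂ} (h : Eig X d i v α) :
    ∑ j, α j = ∑ j, alp X d i N K v j := by
  have h3 : Eig X d i v (alp X d i N K v) := pick_spec ⟨α, h⟩
  have h4 := congrArg Multiset.sum (h.unique' hi h3)
  exact h4

/-- the trace of a sum of newforms -/
theorem tF_ker (hf : IsNewforms L f) {m : Ω →₀ ℕ} (hm : IsNewformSum f Z m) :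
    ∃ S : Finset Nat.Primes, ∀ p ∉ S, ∀ u : 𝓞 K →+* ZMod (p : ℕ),
      tF Z.eqs Z.dim 1 Z.b₁ K (kerPrime p u).1.1 = m.sum fun x k => (k : ℝ) * tt (f x) p := by
  obtain ⟨S, hS⟩ := to_ker hm.2
  refine ⟨S, fun p hp u => ?_⟩
  set v := (kerPrime p u).1.1 with hv
  have hnm : nm K v = (p : ℕ) := nm_ker p u
  obtain ⟨α, h1, h2⟩ := hS p hp u p hnm
  have g1 : Eig Z.eqs Z.dim 1 v (alp Z.eqs Z.dim 1 Z.b₁ K v) := pick_spec ⟨α, h1⟩
  have g2 := sum_unique (one_le_two Z) (eig_of h1)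
  have hq : (0 : ℝ) < nm K v := by
    have := two_le_nm v
    exact_mod_cast (by omega : 0 < nm K v)
  unfold tF tr
  rw [if_pos ⟨fun j => g1.norm j, g1.im (one_le_two Z)⟩, Real.rpow_neg hq.le, nm_h, ← g2, h2, hnm]
  unfold Finsupp.sum
  rw [Complex.re_sum, Finset.sum_mul]
  refine Finset.sum_congr rfl fun x _ => ?_
  have e1 : ((m x : ℂ) * ac (f x) p).re = (m x : ℝ) * rc (f x) p := by
    rw [rc_eq (hf.hecke x).real]
    have e2 : ((m x : ℂ) * (rc (f x) p : ℂ)) = (((m x : ℝ) * rc (f x) p : ℝ) : ℂ) := by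
      push_cast
      rfl
    rw [e2, Complex.ofReal_re]
  rw [e1]
  unfold tt
  rw [mul_assoc, ← div_eq_mul_inv]

theorem uN_ker (x : Ω) (p : Nat.Primes) (u : 𝓞 K →+* ZMod (p : ℕ)) :
    (uN f (x, 0) (kerPrime p u).1.1).re = tt (f x) p := by
  unfold uN
  rw [Complex.re_ofReal_mul, RR_ker]
  unfold zz
  simp

/-- the spectrum of `Y` at height zero -/
noncomputable def sp (f : ∀ x, CuspForm (Gamma0 (L x) : Subgroup (GL (Fin 2) ℝ)) 2) (Y : VarK K)
    (x : Ω) (ε : ℝ) : ℝ :=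
  spec f Y.eqs Y.dim 1 Y.b₁ (x, 0) ε

/-- additivity -/
theorem add_spec (hf : IsNewforms L f) {m : Ω →₀ ℕ} (hm : IsNewformSum f Z m) :
    Tendsto (fun ε : ℝ => (EP (nm K) ε fun v =>
      tF Y.eqs Y.dim 1 Y.b₁ K v * tF Z.eqs Z.dim 1 Z.b₁ K v) / lam ε -
      m.sum fun x k => (k : ℝ) * sp f Y x ε) (𝓝[>] 0) (𝓝 0) := by
  classical
  have hN : NormSys (nm K) := normSys
  obtain ⟨S, hS⟩ := tF_ker hf hm
  set f1 : HeightOneSpectrum (𝓞 K) → ℝ := fun v =>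
    tF Y.eqs Y.dim 1 Y.b₁ K v * tF Z.eqs Z.dim 1 Z.b₁ K v with hf1
  set g : Ω → HeightOneSpectrum (𝓞 K) → ℝ := fun x v =>
    tF Y.eqs Y.dim 1 Y.b₁ K v * (uN f (x, 0) v).re with hg
  set φ : HeightOneSpectrum (𝓞 K) → ℝ := fun v =>
    f1 v + (-1) * ∑ x ∈ m.support, (m x : ℝ) * g x v with hφ
  have hb1 : ∀ v, |f1 v| ≤ (Y.b₁ : ℝ) * Z.b₁ := by
    intro v
    rw [hf1]
    simp only
    rw [abs_mul]
    exact mul_le_mul (abs_tr_le _ _ _) (abs_tr_le _ _ _) (abs_nonneg _) (Nat.cast_nonneg _)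
  have hb2 : ∀ x v, |g x v| ≤ (Y.b₁ : ℝ) * 2 := by
    intro x v
    rw [hg]
    simp only
    rw [abs_mul]
    exact mul_le_mul (abs_tr_le _ _ _) ((Complex.abs_re_le_norm _).trans (norm_uN hf _ v))
      (abs_nonneg _) (Nat.cast_nonneg _)
  have hb3 : ∀ x ∈ m.support, ∀ v, |(m x : ℝ) * g x v| ≤ (m x : ℝ) * ((Y.b₁ : ℝ) * 2) := by
    intro x _ v
    rw [abs_mul, abs_of_nonneg (Nat.cast_nonneg _)]
    exact mul_le_mul_of_nonneg_left (hb2 x v) (Nat.cast_nonneg _)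
  set G : ℝ := ∑ x ∈ m.support, (m x : ℝ) * ((Y.b₁ : ℝ) * 2) with hG
  have hb4 : ∀ v, |∑ x ∈ m.support, (m x : ℝ) * g x v| ≤ G := fun v =>
    (Finset.abs_sum_le_sum_abs _ _).trans (Finset.sum_le_sum fun x hx => hb3 x hx v)
  have hb5 : ∀ v, |(-1) * ∑ x ∈ m.support, (m x : ℝ) * g x v| ≤ G := fun v => by
    rw [abs_mul, abs_neg, abs_one, one_mul]
    exact hb4 v
  have h0 := EP_deg (φ := φ) (B := (Y.b₁ : ℝ) * Z.b₁ + G) (by positivity)
    (fun v => (abs_add_le _ _).trans (add_le_add (hb1 v) (hb5 v))) (S := S) (fun p hp u => by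
      rw [hφ, hf1, hg]
      simp only
      rw [hS p hp u]
      simp only [uN_ker]
      unfold Finsupp.sum
      rw [Finset.mul_sum, Finset.mul_sum, ← Finset.sum_add_distrib]
      refine Finset.sum_eq_zero fun x _ => ?_
      ring)
  refine h0.congr' ?_
  filter_upwards [self_mem_nhdsWithin] with ε hε
  have hε' : (0 : ℝ) < ε := hε
  rw [hφ, EP_add hN hε' hb1 hb5, EP_const_mul, EP_sum hN hε' m.support
    (fun x v => (m x : ℝ) * g x v) (fun x => (m x : ℝ) * ((Y.b₁ : ℝ) * 2)) hb3]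
  unfold Finsupp.sum sp spec
  rw [add_div, sub_eq_add_neg]
  congr 1
  rw [neg_one_mul, neg_div, Finset.sum_div]
  congr 1
  refine Finset.sum_congr rfl fun x _ => ?_
  rw [EP_const_mul, mul_div_assoc]

/-- **Additivity.** -/
theorem main_add (hf : IsNewforms L f) {m : Ω →₀ ℕ} (hm : IsNewformSum f Z m)
    {B₀ B' B : HeightOneSpectrum (𝓞 K) → ℂ[X]}
    (h₀ : IsL₂ Y B₀) (h' : IsL₂ Z B') (hB : IsL₂Product Y Z B) :
    Tendsto (fun ε : ℝ => size 2 B ε - size 2 B₀ ε - size 2 B' ε -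
      m.sum fun x k => (k : ℝ) * sp f Y x ε) (𝓝[>] 0) (𝓝 0) := by
  have h1 := (add_spec (Y := Y) hf hm).sub (link h₀ h' hB).2
  rw [sub_zero] at h1
  exact h1.congr fun ε => by ring

/-- **Bessel's inequality.** -/
theorem main_bessel (hf : IsNewforms L f) (Y : VarK K) {B₂ : HeightOneSpectrum (𝓞 K) → ℂ[X]}
    (h₂ : IsSquare Y B₂) (J : Finset Ω) {η : ℝ} (hη : 0 < η) :
    ∀ᶠ ε : ℝ in 𝓝[>] 0,
      ∑ x ∈ J, (max (sp f Y x ε) 0) ^ 2 ≤ Module.finrank ℚ K * size 2 B₂ ε + η ∧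
      ∑ x ∈ J, (max (-sp f Y x ε) 0) ^ 2 ≤ Module.finrank ℚ K * size 2 B₂ ε + η := by
  classical
  have hD : (0 : ℝ) < Module.finrank ℚ K := by exact_mod_cast Module.finrank_pos
  obtain ⟨g1, g2⟩ := spec_bessel (X := Y.eqs) (d := Y.dim) (j := 1) (b := Y.b₁) hf
    (J.map ⟨fun x => ((x, 0) : Ω × ℝ), fun a b h => (Prod.ext_iff.1 h).1⟩) (half_pos hη)
  have h3 := ((square h₂).2).const_mul (Module.finrank ℚ K : ℝ)
  rw [mul_zero] at h3
  filter_upwards [g1, g2, h3.eventually_lt_const (half_pos hη)] with ε h4 h5 h6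
  rw [Finset.sum_map] at h4 h5
  rw [mul_sub] at h6
  have h4' : ∑ x ∈ J, (max (sp f Y x ε) 0) ^ 2 ≤ Module.finrank ℚ K *
      ((EP (nm K) ε fun v => tF Y.eqs Y.dim 1 Y.b₁ K v ^ 2) / lam ε) + η / 2 := h4
  have h5' : ∑ x ∈ J, (max (-sp f Y x ε) 0) ^ 2 ≤ Module.finrank ℚ K *
      ((EP (nm K) ε fun v => tF Y.eqs Y.dim 1 Y.b₁ K v ^ 2) / lam ε) + η / 2 := h5
  constructor <;> linarith

/-- a bound for the mean square -/
theorem main_bound (hf : IsNewforms L f) (Y : VarK K) {B₂ : HeightOneSpectrum (𝓞 K) → ℂ[X]}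
    (h₂ : IsSquare Y B₂) {ρ : ℕ} (hρ : ρ = Y.b₁ ^ 2 ∨ HasOrder 2 B₂ (-(ρ : ℤ)))
    (J : Finset Ω) {η : ℝ} (hη : 0 < η) :
    ∀ᶠ ε : ℝ in 𝓝[>] 0,
      ∑ x ∈ J, (max (sp f Y x ε) 0) ^ 2 ≤ Module.finrank ℚ K * ρ + η ∧
      ∑ x ∈ J, (max (-sp f Y x ε) 0) ^ 2 ≤ Module.finrank ℚ K * ρ + η := by
  have hD : (0 : ℝ) < Module.finrank ℚ K := by exact_mod_cast Module.finrank_pos
  have h1 := main_bessel hf Y h₂ J (half_pos hη)
  have h2 : ∀ᶠ ε : ℝ in 𝓝[>] 0, size 2 B₂ ε ≤ ρ + η / (2 * Module.finrank ℚ K) := by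
    rcases hρ with h | h
    · have h3 := square_le Y (η := η / (2 * Module.finrank ℚ K) / 2) (by positivity)
      have h4 := (square h₂).2
      filter_upwards [h3, h4.eventually_const_lt
        (show -(η / (2 * Module.finrank ℚ K) / 2) < (0 : ℝ) by
          have : 0 < η / (2 * Module.finrank ℚ K) / 2 := by positivity
          linarith)] with ε h5 h6
      rw [h]
      push_cast
      linarith
    · have e0 : (((2 : ℕ) : ℂ) / 2 + 1).re = ((2 : ℕ) : ℝ) / 2 + 1 := by norm_num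
      obtain ⟨Λ, g1, g2, g3⟩ := h
      have l1 := lim_ord (square h₂).1 g1
        (g2.mono fun s hs hs' => hs (by rw [e0] at hs'; exact hs')) g3
      have l2 : -(((-(ρ : ℤ) : ℤ)) : ℝ) < ρ + η / (2 * Module.finrank ℚ K) := by
        have : 0 < η / (2 * Module.finrank ℚ K) := by positivity
        push_cast
        linarith
      filter_upwards [l1.eventually_lt_const l2] with ε h5
      exact h5.le
  filter_upwards [h1, h2] with ε h3 h4
  have h5 : (Module.finrank ℚ K : ℝ) * size 2 B₂ ε ≤ Module.finrank ℚ K * ρ + η / 2 := by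
    calc (Module.finrank ℚ K : ℝ) * size 2 B₂ ε ≤
        Module.finrank ℚ K * (ρ + η / (2 * Module.finrank ℚ K)) :=
          mul_le_mul_of_nonneg_left h4 hD.le
      _ = _ := by field_simp
  exact ⟨h3.1.trans (by linarith), h3.2.trans (by linarith)⟩

theorem w_ineq (m : Ω →₀ ℕ) (s a : Ω → ℝ) (hsa : ∀ x, s x ≤ a x) (ha : ∀ x, 0 ≤ a x) :
    (max (m.sum fun x k => (k : ℝ) * s x) 0) ^ 2 / (m.sum fun _ k => k ^ 2 : ℕ) ≤
      ∑ x ∈ m.support, a x ^ 2 := by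
  have hA0 : 0 ≤ ∑ x ∈ m.support, (m x : ℝ) * a x :=
    Finset.sum_nonneg fun x _ => mul_nonneg (Nat.cast_nonneg _) (ha x)
  have h1 : max (m.sum fun x k => (k : ℝ) * s x) 0 ≤ ∑ x ∈ m.support, (m x : ℝ) * a x := by
    refine max_le ?_ hA0
    unfold Finsupp.sum
    exact Finset.sum_le_sum fun x _ => mul_le_mul_of_nonneg_left (hsa x) (Nat.cast_nonneg _)
  have h2 := pow_le_pow_left₀ (le_max_right _ _) h1 2
  have h3 := Finset.sum_mul_sq_le_sq_mul_sq m.support (fun x => (m x : ℝ)) a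
  rcases Nat.eq_zero_or_pos (m.sum fun _ k => k ^ 2) with h0 | h0
  · rw [h0, Nat.cast_zero, div_zero]
    exact Finset.sum_nonneg fun x _ => sq_nonneg _
  · rw [div_le_iff₀ (by exact_mod_cast h0)]
    refine h2.trans (h3.trans (le_of_eq ?_))
    unfold Finsupp.sum
    push_cast
    ring

section
variable {ι : Type} {W : ι → VarK K} {m : ι → Ω →₀ ℕ} {M : ℕ}

theorem mult_le [DecidableEq Ω] (hM : ∀ (x : Ω) (S : Finset ι), (∀ i ∈ S, m i x ≠ 0) → S.card ≤ M)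
    (J : Finset ι) (a : Ω → ℝ) (ha : ∀ x, 0 ≤ a x) :
    ∑ i ∈ J, ∑ x ∈ (m i).support, a x ≤ M * ∑ x ∈ J.biUnion fun i => (m i).support, a x := by
  classical
  have h1 : ∀ i ∈ J, ∑ x ∈ (m i).support, a x =
      ∑ x ∈ J.biUnion fun i => (m i).support, if m i x ≠ 0 then a x else 0 := by
    intro i hi
    rw [← Finset.sum_filter]
    refine Finset.sum_congr ?_ fun _ _ => rfl
    ext x
    simp only [Finsupp.mem_support_iff, Finset.mem_filter, Finset.mem_biUnion]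
    exact ⟨fun h => ⟨⟨i, hi, h⟩, h⟩, fun h => h.2⟩
  rw [Finset.sum_congr rfl h1, Finset.sum_comm, Finset.mul_sum]
  refine Finset.sum_le_sum fun x _ => ?_
  rw [← Finset.sum_filter, Finset.sum_const, nsmul_eq_mul]
  refine mul_le_mul_of_nonneg_right ?_ (ha x)
  exact_mod_cast hM x _ fun i hi => (Finset.mem_filter.1 hi).2

/-- the limits -/
theorem size_lim {B : HeightOneSpectrum (𝓞 K) → ℂ[X]} {r : ℤ}
    (hne : ∀ᶠ ε : ℝ in 𝓝[>] 0, LFun B (((2 : ℕ) : ℂ) / 2 + 1 + ε) ≠ 0)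
    (hr : HasOrder 2 B (-r)) : Tendsto (size 2 B) (𝓝[>] 0) (𝓝 (r : ℝ)) := by
  have e0 : (((2 : ℕ) : ℂ) / 2 + 1).re = ((2 : ℕ) : ℝ) / 2 + 1 := by norm_num
  obtain ⟨Λ, g1, g2, g3⟩ := hr
  have l1 := lim_ord hne g1 (g2.mono fun s hs hs' => hs (by rw [e0] at hs'; exact hs')) g3
  refine (l1.congr fun ε => rfl).trans (le_of_eq ?_)
  push_cast
  rw [neg_neg]

/-- **The orders.** -/
theorem main_order (hf : IsNewforms L f) {B₂ : HeightOneSpectrum (𝓞 K) → ℂ[X]}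
    (h₂ : IsSquare Y B₂) {ρ : ℕ} (hρ : ρ = Y.b₁ ^ 2 ∨ HasOrder 2 B₂ (-(ρ : ℤ)))
    (hm : ∀ i, IsNewformSum f (W i) (m i))
    (hM : ∀ (x : Ω) (S : Finset ι), (∀ i ∈ S, m i x ≠ 0) → S.card ≤ M)
    {B₀ : HeightOneSpectrum (𝓞 K) → ℂ[X]} {B' B : ι → HeightOneSpectrum (𝓞 K) → ℂ[X]}
    (h₀ : IsL₂ Y B₀) (h' : ∀ i, IsL₂ (W i) (B' i)) (hB : ∀ i, IsL₂Product Y (W i) (B i))
    {r₀ : ℤ} {r' r : ι → ℤ} (hr₀ : HasOrder 2 B₀ (-r₀)) (hr' : ∀ i, HasOrder 2 (B' i) (-(r' i)))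
    (hr : ∀ i, HasOrder 2 (B i) (-(r i))) (J : Finset ι) :
    ∑ i ∈ J, (max ((r i : ℝ) - r₀ - r' i) 0) ^ 2 / ((m i).sum fun _ k => k ^ 2 : ℕ) ≤
      M * (Module.finrank ℚ K * ρ) ∧
    ∑ i ∈ J, (max ((r₀ : ℝ) + r' i - r i) 0) ^ 2 / ((m i).sum fun _ k => k ^ 2 : ℕ) ≤
      M * (Module.finrank ℚ K * ρ) := by
  classical
  set U : Finset Ω := J.biUnion fun i => (m i).support with hU
  -- the limits
  have hlim : ∀ i, Tendsto (fun ε => (m i).sum fun x k => (k : ℝ) * sp f Y x ε) (𝓝[>] 0)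
      (𝓝 ((r i : ℝ) - r₀ - r' i)) := by
    intro i
    have l1 := size_lim (link h₀ (h' i) (hB i)).1 (hr i)
    have l2 := size_lim (base h₀).1 hr₀
    have l3 := size_lim (base (h' i)).1 (hr' i)
    have l4 := main_add hf (hm i) h₀ (h' i) (hB i)
    have l5 := ((l1.sub l2).sub l3).sub l4
    rw [sub_zero] at l5
    exact l5.congr fun ε => by ring
  have hcont1 : Continuous fun x : ℝ => (max x 0) ^ 2 := by fun_prop
  have hcont2 : Continuous fun x : ℝ => (max (-x) 0) ^ 2 := by fun_prop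
  have hb : ∀ η : ℝ, 0 < η → ∀ᶠ ε : ℝ in 𝓝[>] 0,
      (∑ i ∈ J, (max ((m i).sum fun x k => (k : ℝ) * sp f Y x ε) 0) ^ 2 /
        ((m i).sum fun _ k => k ^ 2 : ℕ) ≤ M * (Module.finrank ℚ K * ρ) + M * η) ∧
      (∑ i ∈ J, (max (-((m i).sum fun x k => (k : ℝ) * sp f Y x ε)) 0) ^ 2 /
        ((m i).sum fun _ k => k ^ 2 : ℕ) ≤ M * (Module.finrank ℚ K * ρ) + M * η) := by
    intro η hη
    filter_upwards [main_bound hf Y h₂ hρ U hη] with ε h1
    constructor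
    · refine (Finset.sum_le_sum fun i _ => w_ineq (m i) (fun x => sp f Y x ε)
        (fun x => max (sp f Y x ε) 0) (fun x => le_max_left _ _) fun x => le_max_right _ _).trans ?_
      refine (mult_le hM J (fun x => max (sp f Y x ε) 0 ^ 2) fun x => sq_nonneg _).trans ?_
      rw [← mul_add]
      exact mul_le_mul_of_nonneg_left h1.1 (Nat.cast_nonneg _)
    · have e : ∀ i, -((m i).sum fun x k => (k : ℝ) * sp f Y x ε) =
          (m i).sum fun x k => (k : ℝ) * (-sp f Y x ε) := by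
        intro i
        unfold Finsupp.sum
        rw [← Finset.sum_neg_distrib]
        exact Finset.sum_congr rfl fun x _ => by ring
      refine (Finset.sum_le_sum fun i _ => (le_of_eq (by rw [e i])).trans
        (w_ineq (m i) (fun x => -sp f Y x ε)
        (fun x => max (-sp f Y x ε) 0) (fun x => le_max_left _ _) fun x => le_max_right _ _)).trans
        ?_
      refine (mult_le hM J (fun x => max (-sp f Y x ε) 0 ^ 2) fun x => sq_nonneg _).trans ?_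
      rw [← mul_add]
      exact mul_le_mul_of_nonneg_left h1.2 (Nat.cast_nonneg _)
  have hfin : ∀ (F : ℝ → ℝ) (L₀ : ℝ), Tendsto F (𝓝[>] 0) (𝓝 L₀) →
      (∀ η : ℝ, 0 < η → ∀ᶠ ε : ℝ in 𝓝[>] 0, F ε ≤ M * (Module.finrank ℚ K * ρ) + M * η) →
      L₀ ≤ M * (Module.finrank ℚ K * ρ) := by
    intro F L₀ hF h
    refine le_of_forall_pos_le_add fun η hη => ?_
    have h1 := le_of_tendsto hF (h (η / (M + 1)) (by positivity))
    have h2 : (M : ℝ) * (η / (M + 1)) ≤ η := by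
      rw [← mul_div_assoc, div_le_iff₀ (by positivity)]
      nlinarith
    linarith
  refine ⟨?_, ?_⟩
  · exact hfin _ _ (tendsto_finsetSum J fun i _ =>
      ((hcont1.tendsto _).comp (hlim i)).div_const _) fun η hη => (hb η hη).mono fun ε h => h.1
  · refine le_trans (le_of_eq (Finset.sum_congr rfl fun i _ => ?_)) (hfin _ _
      (tendsto_finsetSum J fun i _ => ((hcont2.tendsto _).comp (hlim i)).div_const _)
      fun η hη => (hb η hη).mono fun ε h => h.2)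
    congr 3
    ring

/-- no newform, no defect -/
theorem order_zero (hf : IsNewforms L f) (Z : VarK K) {m : Ω →₀ ℕ} (hm : IsNewformSum f Z m)
    {B₀ B' B : HeightOneSpectrum (𝓞 K) → ℂ[X]}
    (h₀ : IsL₂ Y B₀) (h' : IsL₂ Z B') (hB : IsL₂Product Y Z B)
    {r₀ r' r : ℤ} (hr₀ : HasOrder 2 B₀ (-r₀)) (hr' : HasOrder 2 B' (-r'))
    (hr : HasOrder 2 B (-r)) (h0 : (m.sum fun _ k => k ^ 2) = 0) : r = r₀ + r' := by
  have l1 := size_lim (link h₀ h' hB).1 hr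
  have l2 := size_lim (base h₀).1 hr₀
  have l3 := size_lim (base h').1 hr'
  have l4 := main_add hf hm h₀ h' hB
  have l5 := ((l1.sub l2).sub l3).sub l4
  rw [sub_zero] at l5
  have hz : ∀ ε, (m.sum fun x k => (k : ℝ) * sp f Y x ε) = 0 := by
    intro ε
    unfold Finsupp.sum at h0 ⊢
    refine Finset.sum_eq_zero fun x hx => ?_
    have h1 := Finset.sum_eq_zero_iff.1 h0 x hx
    have h2 : m x = 0 := by simpa using h1
    simp [h2]
  have l6 := tendsto_nhds_unique l5 ((tendsto_const_nhds (x := (0 : ℝ))).congr fun ε => by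
    rw [show (0 : ℝ) = m.sum fun x k => (k : ℝ) * sp f Y x ε from (hz ε).symm]
    ring)
  have h7 : (r : ℝ) = r₀ + r' := by linarith
  exact_mod_cast h7

/-- **The number of exceptions.** -/
theorem main_card (hf : IsNewforms L f) {B₂ : HeightOneSpectrum (𝓞 K) → ℂ[X]}
    (h₂ : IsSquare Y B₂) {ρ : ℕ} (hρ : ρ = Y.b₁ ^ 2 ∨ HasOrder 2 B₂ (-(ρ : ℤ)))
    (hm : ∀ i, IsNewformSum f (W i) (m i))
    (hM : ∀ (x : Ω) (S : Finset ι), (∀ i ∈ S, m i x ≠ 0) → S.card ≤ M)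
    {B₀ : HeightOneSpectrum (𝓞 K) → ℂ[X]} {B' B : ι → HeightOneSpectrum (𝓞 K) → ℂ[X]}
    (h₀ : IsL₂ Y B₀) (h' : ∀ i, IsL₂ (W i) (B' i)) (hB : ∀ i, IsL₂Product Y (W i) (B i))
    {r₀ : ℤ} {r' r : ι → ℤ} (hr₀ : HasOrder 2 B₀ (-r₀)) (hr' : ∀ i, HasOrder 2 (B' i) (-(r' i)))
    (hr : ∀ i, HasOrder 2 (B i) (-(r i))) (w : ℕ) :
    {i | ((m i).sum fun _ k => k ^ 2) ≤ w ∧ r i ≠ r₀ + r' i}.Finite ∧
    {i | ((m i).sum fun _ k => k ^ 2) ≤ w ∧ r i ≠ r₀ + r' i}.ncard ≤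
      2 * (M * Module.finrank ℚ K * ρ) * w := by
  have key : ∀ J : Finset ι, (∀ i ∈ J, i ∈ {i | ((m i).sum fun _ k => k ^ 2) ≤ w ∧
      r i ≠ r₀ + r' i}) → J.card ≤ 2 * (M * Module.finrank ℚ K * ρ) * w := by
    intro J hJ
    obtain ⟨h1, h2⟩ := main_order hf h₂ hρ hm hM h₀ h' hB hr₀ hr' hr J
    have h3 : ∀ i ∈ J, (1 : ℝ) / w ≤
        (max ((r i : ℝ) - r₀ - r' i) 0) ^ 2 / ((m i).sum fun _ k => k ^ 2 : ℕ) +
        (max ((r₀ : ℝ) + r' i - r i) 0) ^ 2 / ((m i).sum fun _ k => k ^ 2 : ℕ) := by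
      intro i hi
      obtain ⟨g1, g2⟩ := hJ i hi
      have g3 : 0 < (m i).sum fun _ k => k ^ 2 := by
        rcases Nat.eq_zero_or_pos ((m i).sum fun _ k => k ^ 2) with h0 | h0
        · exact absurd (order_zero hf (W i) (hm i) h₀ (h' i) (hB i) hr₀ (hr' i) (hr i) h0) g2
        · exact h0
      have g4 : (0 : ℝ) < ((m i).sum fun _ k => k ^ 2 : ℕ) := by exact_mod_cast g3
      have g5 : (((m i).sum fun _ k => k ^ 2 : ℕ) : ℝ) ≤ w := by exact_mod_cast g1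
      rw [← add_div]
      have g6 : (1 : ℝ) ≤ (max ((r i : ℝ) - r₀ - r' i) 0) ^ 2 +
          (max ((r₀ : ℝ) + r' i - r i) 0) ^ 2 := by
        rcases lt_or_gt_of_ne g2 with h5 | h5
        · have h6 : r i + 1 ≤ r₀ + r' i := h5
          have h7 : (r i : ℝ) + 1 ≤ r₀ + r' i := by exact_mod_cast h6
          have h8 : (1 : ℝ) ≤ max ((r₀ : ℝ) + r' i - r i) 0 :=
            le_trans (by linarith) (le_max_left _ _)
          nlinarith [sq_nonneg (max ((r i : ℝ) - r₀ - r' i) 0)]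
        · have h6 : r₀ + r' i + 1 ≤ r i := h5
          have h7 : (r₀ : ℝ) + r' i + 1 ≤ r i := by exact_mod_cast h6
          have h8 : (1 : ℝ) ≤ max ((r i : ℝ) - r₀ - r' i) 0 :=
            le_trans (by linarith) (le_max_left _ _)
          nlinarith [sq_nonneg (max ((r₀ : ℝ) + r' i - r i) 0)]
      exact div_le_div₀ (by linarith) g6 g4 g5
    have h4 := Finset.sum_le_sum h3
    rw [Finset.sum_const, Finset.sum_add_distrib, nsmul_eq_mul] at h4
    rcases Nat.eq_zero_or_pos w with h0 | h0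
    · have h5 : J = ∅ := by
        by_contra hne
        obtain ⟨i, hi⟩ := Finset.nonempty_iff_ne_empty.2 hne
        obtain ⟨g1, g2⟩ := hJ i hi
        rw [h0] at g1
        exact g2 (order_zero hf (W i) (hm i) h₀ (h' i) (hB i) hr₀ (hr' i) (hr i)
          (Nat.le_zero.1 g1))
      rw [h5]
      simp
    · have h5 : (0 : ℝ) < w := by exact_mod_cast h0
      have h6 : (J.card : ℝ) * (1 / w) ≤ 2 * (M * (Module.finrank ℚ K * ρ)) := by linarith
      rw [mul_one_div, div_le_iff₀ h5] at h6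
      have h7 : (J.card : ℝ) ≤ ((2 * (M * Module.finrank ℚ K * ρ) * w : ℕ) : ℝ) := by
        push_cast
        linarith
      exact_mod_cast h7
  have hfin : {i | ((m i).sum fun _ k => k ^ 2) ≤ w ∧ r i ≠ r₀ + r' i}.Finite := by
    by_contra hinf
    obtain ⟨S, hS1, hS2⟩ := Set.Infinite.exists_subset_card_eq hinf
      (2 * (M * Module.finrank ℚ K * ρ) * w + 1)
    have h1 := key S fun x hx => hS1 hx
    omega
  refine ⟨hfin, ?_⟩
  have h1 := key hfin.toFinset fun x hx => hfin.mem_toFinset.1 hx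
  rwa [← Set.ncard_eq_toFinset_card _ hfin] at h1

end

end

end Pool.Agent.U187.NS
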