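import Pool.Agent.Y149.LN.Main
import Pool.Agent.U187.MF.Defs

/-! The traces of newforms over a number field and the spectrum of a variety. -/

set_option autoImplicit false

namespace Pool.Agent.U187.NS

open Complex Filter Topology ComplexConjugate NumberField IsDedekindDomain CongruenceSubgroup
open scoped MatrixGroups
open Pool.Agent.W540.BE Pool.Agent.W353.L1
open Pool.Agent.H341R2 (E lam lam_tendsto lam_bounded)
open Pool.Agent.H921R2.TatePole (kerPrime C0)
open Pool.Agent.Y149.LN (push_le sumP wP norm_wP bessel_D)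
open Pool.Agent.Y722.RS (S2 rc tt tt_le rc_eq)
open Pool.Agent.W165.RS (ac)
open Pool.Agent.W353.PV (tF)
open Pool.Agent.U187.MF (IsNewforms)

section
variable {K : Type} [Field K] [NumberField K] {Ω : Type} {L : Ω → ℕ}
  (f : ∀ x, CuspForm (Gamma0 (L x) : Subgroup (GL (Fin 2) ℝ)) 2)

open Classical in
/-- the normalised eigenvalue of a newform at the primes of degree one -/
noncomputable def RR (x : Ω) (v : HeightOneSpectrum (𝓞 K)) : ℝ :=
  if (nm K v).Prime then tt (f x) (nm K v) else 0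

variable {f}

theorem RR_le (hf : IsNewforms L f) (x : Ω) (v : HeightOneSpectrum (𝓞 K)) : |RR f x v| ≤ 2 := by
  have : NeZero (L x) := ⟨hf.pos x⟩
  unfold RR
  split_ifs with h
  · exact tt_le (hf.hecke x) h
  · simp

theorem nm_ker (p : Nat.Primes) (u : 𝓞 K →+* ZMod (p : ℕ)) :
    nm K (kerPrime p u).1.1 = (p : ℕ) := Pool.Agent.H341R2.nm_kerPrime p u

theorem RR_ker (x : Ω) (p : Nat.Primes) (u : 𝓞 K →+* ZMod (p : ℕ)) :
    RR f x (kerPrime p u).1.1 = tt (f x) p := by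
  unfold RR
  rw [nm_ker, if_pos p.2]

variable (f) in
/-- the trace at a height -/
noncomputable def uN (x : Ω × ℝ) (v : HeightOneSpectrum (𝓞 K)) : ℂ := (RR f x.1 v : ℂ) * zz x.2 v

theorem norm_uN (hf : IsNewforms L f) (x : Ω × ℝ) (v : HeightOneSpectrum (𝓞 K)) :
    ‖uN f x v‖ ≤ 2 := by
  unfold uN
  rw [norm_mul, norm_zz, mul_one, Complex.norm_real, Real.norm_eq_abs]
  exact RR_le hf _ v

/-- **One-sided orthogonality over `K`.** -/
theorem sumN (hf : IsNewforms L f) (S : Finset (Ω × ℝ)) (B : ℝ) :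
    ∃ C : ℝ, ∀ᶠ ε : ℝ in 𝓝[>] 0, ∀ c : Ω × ℝ → ℝ, (∀ x ∈ S, 0 ≤ c x ∧ c x ≤ B) →
      (EP (nm K) ε fun v => ‖∑ x ∈ S, (c x : ℂ) * uN f x v‖ ^ 2) ≤
        Module.finrank ℚ K * ((∑ x ∈ S, c x ^ 2) * lam ε) + C := by
  classical
  have : ∀ x, NeZero (L x) := fun x => ⟨hf.pos x⟩
  obtain ⟨C, hC0, hC⟩ := sumP (f := f) S (fun x _ => hf.hecke x.1) (fun x _ y _ hxy => by
    obtain ⟨p, hp, h1, h2, h3⟩ := hf.ne x.1 y.1 hxy
    refine ⟨p, hp, h1, h2, fun h => h3 ?_⟩
    rw [rc_eq (hf.hecke x.1).real, rc_eq (hf.hecke y.1).real, h]) B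
  set G : ℝ := (S.card * (|B| * 2)) ^ 2 with hG
  refine ⟨Module.finrank ℚ K * C + (G * Module.finrank ℚ K * C0 +
    ((∅ : Finset Nat.Primes).card : ℝ) * (Module.finrank ℚ K * G)), ?_⟩
  filter_upwards [hC, self_mem_nhdsWithin] with ε h1 h2 c hc
  have hε : (0 : ℝ) < ε := h2
  have hcB : ∀ x ∈ S, |c x| ≤ |B| := by
    intro x hx
    rw [abs_of_nonneg (hc x hx).1]
    exact (hc x hx).2.trans (le_abs_self B)
  have hbd : ∀ z : Ω × ℝ → ℂ, (∀ x ∈ S, ‖z x‖ ≤ 2) → ‖∑ x ∈ S, (c x : ℂ) * z x‖ ^ 2 ≤ G := by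
    intro z hz
    refine pow_le_pow_left₀ (norm_nonneg _) ((norm_sum_le _ _).trans
      ((Finset.sum_le_card_nsmul _ _ (|B| * 2) fun x hx => ?_).trans
      (le_of_eq (nsmul_eq_mul _ _)))) 2
    rw [norm_mul, Complex.norm_real, Real.norm_eq_abs]
    exact mul_le_mul (hcB x hx) (hz x hx) (norm_nonneg _) (abs_nonneg _)
  have h3 := push_le (K := K) (φ := fun v => ‖∑ x ∈ S, (c x : ℂ) * uN f x v‖ ^ 2)
    (ψ := fun p => ‖∑ x ∈ S, (c x : ℂ) * wP f x p‖ ^ 2) (G := G) (S := ∅)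
    (fun v => sq_nonneg _) (fun v => hbd _ fun x _ => norm_uN hf x v) (fun p => sq_nonneg _)
    (fun p => hbd _ fun x hx => norm_wP (hf.hecke x.1) p) (fun p _ u => by
      congr 2
      refine Finset.sum_congr rfl fun x hx => ?_
      congr 1
      unfold uN wP zz
      rw [RR_ker, nm_ker]) hε
  have h4 := h1 c hc
  have hD0 : (0 : ℝ) ≤ Module.finrank ℚ K := Nat.cast_nonneg _
  have h5 := mul_le_mul_of_nonneg_left h4 hD0
  refine h3.trans ?_
  linarith

variable {n : ℕ} {X : Set (MvPolynomial (Fin n) (𝓞 K))} {d j b : ℕ}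

variable (f X d j b) in
/-- **The spectrum** of `H^j(X)` on the newforms and the heights. -/
noncomputable def spec (x : Ω × ℝ) (ε : ℝ) : ℝ :=
  (EP (nm K) ε fun v => tF X d j b K v * (uN f x v).re) / lam ε

/-- Bessel's inequality for the spectrum -/
theorem spec_bessel (hf : IsNewforms L f) (S : Finset (Ω × ℝ)) {η : ℝ} (hη : 0 < η) :
    (∀ᶠ ε : ℝ in 𝓝[>] 0, ∑ x ∈ S, (max (spec f X d j b x ε) 0) ^ 2 ≤
      Module.finrank ℚ K * ((EP (nm K) ε fun v => tF X d j b K v ^ 2) / lam ε) + η) ∧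
    (∀ᶠ ε : ℝ in 𝓝[>] 0, ∑ x ∈ S, (max (-spec f X d j b x ε) 0) ^ 2 ≤
      Module.finrank ℚ K * ((EP (nm K) ε fun v => tF X d j b K v ^ 2) / lam ε) + η) := by
  have hN : NormSys (nm K) := normSys
  have hD : (0 : ℝ) < Module.finrank ℚ K := by exact_mod_cast Module.finrank_pos
  have hT : ∀ v, |tF X d j b K v| ≤ (b : ℝ) := fun v => abs_tr_le _ _ _
  have hT' : ∀ v, |-tF X d j b K v| ≤ (b : ℝ) := fun v => by rw [abs_neg]; exact hT v
  have hV := sumN (K := K) hf S
  have e : ∀ x ε, (EP (nm K) ε fun v => -tF X d j b K v * (uN f x v).re) =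
      -(EP (nm K) ε fun v => tF X d j b K v * (uN f x v).re) := by
    intro x ε
    rw [← neg_one_mul (EP (nm K) ε fun v => tF X d j b K v * (uN f x v).re),
      ← EP_const_mul]
    exact Pool.Agent.Y677.SM.EP_congr fun v => by ring
  have g1 := bessel_D hN lam_tendsto (EP_one K) S (uN f) (fun v => tF X d j b K v)
    hD (fun x v => norm_uN hf x v) hT hV (spec f X d j b) (fun x _ => by
      refine tendsto_const_nhds.congr fun ε => ?_
      unfold spec
      rw [sub_self]) hη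
  have g2 := bessel_D hN lam_tendsto (EP_one K) S (uN f) (fun v => -tF X d j b K v)
    hD (fun x v => norm_uN hf x v) hT' hV (fun x ε => -spec f X d j b x ε) (fun x _ => by
      refine tendsto_const_nhds.congr fun ε => ?_
      unfold spec
      rw [e]
      ring) hη
  refine ⟨g1, g2.mono fun ε h => ?_⟩
  simp only [neg_sq] at h
  exact h

/-- finitely many primes of `K` -/
theorem to_ker {P : HeightOneSpectrum (𝓞 K) → Prop} (h : ∀ᶠ v in cofinite, P v) :
    ∃ S : Finset Nat.Primes, ∀ p ∉ S, ∀ u : 𝓞 K →+* ZMod (p : ℕ), P (kerPrime p u).1.1 := by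
  classical
  have hfin : {v | ¬ P v}.Finite := by rwa [Filter.eventually_cofinite] at h
  have h2 : {p : Nat.Primes | (p : ℕ) ∈ (nm K) '' {v | ¬ P v}}.Finite :=
    Set.Finite.preimage (Subtype.val_injective.injOn) (hfin.image (nm K))
  refine ⟨h2.toFinset, fun p hp u => ?_⟩
  by_contra hP
  apply hp
  rw [Set.Finite.mem_toFinset]
  exact ⟨_, hP, nm_ker p u⟩

/-- the primes of degree at least two do not matter -/
theorem EP_deg {φ : HeightOneSpectrum (𝓞 K) → ℝ} {B : ℝ} (hB0 : 0 ≤ B) (hb : ∀ v, |φ v| ≤ B)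
    {S : Finset Nat.Primes} (h : ∀ p ∉ S, ∀ u : 𝓞 K →+* ZMod (p : ℕ), φ (kerPrime p u).1.1 = 0) :
    Tendsto (fun ε : ℝ => EP (nm K) ε φ / lam ε) (𝓝[>] 0) (𝓝 0) := by
  have hN : NormSys (nm K) := normSys
  set C : ℝ := B * Module.finrank ℚ K * C0 + S.card * (Module.finrank ℚ K * B) with hC
  have h3 : Tendsto (fun ε : ℝ => |C| / lam ε) (𝓝[>] 0) (𝓝 0) :=
    tendsto_const_nhds.div_atTop lam_tendsto
  refine squeeze_zero_norm' ?_ h3
  filter_upwards [self_mem_nhdsWithin, lam_tendsto.eventually_gt_atTop 0] with ε hε hε'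
  have hε0 : (0 : ℝ) < ε := hε
  rw [Real.norm_eq_abs, abs_div, abs_of_pos hε']
  refine div_le_div_of_nonneg_right ?_ hε'.le
  have h1 := push_le (K := K) (φ := fun v => |φ v|) (ψ := fun _ => 0) (G := B) (S := S)
    (fun v => abs_nonneg _) hb (fun _ => le_rfl) (fun _ => hB0) (fun p hp u => by
      rw [h p hp u, abs_zero]) hε0
  have h2 : E ε (fun _ : Nat.Primes => (0 : ℝ)) = 0 := by
    unfold Pool.Agent.H341R2.E
    simp
  rw [h2, mul_zero, zero_add] at h1
  have h4 : |EP (nm K) ε φ| ≤ EP (nm K) ε fun v => |φ v| := by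
    rw [abs_le]
    constructor
    · have h5 := Pool.Agent.Y149.CR.EP_mono' hN hε0 (φ := fun v => -|φ v|) (ψ := φ)
        (fun v => by rw [abs_neg, abs_abs]; exact hb v) hb (fun v => neg_abs_le _)
      have e : (EP (nm K) ε fun v => -|φ v|) = -(EP (nm K) ε fun v => |φ v|) := by
        rw [← neg_one_mul (EP (nm K) ε fun v => |φ v|), ← EP_const_mul]
        exact Pool.Agent.Y677.SM.EP_congr fun v => by ring
      rw [e] at h5
      exact h5
    · exact Pool.Agent.Y149.CR.EP_mono' hN hε0 hb (fun v => by rw [abs_abs]; exact hb v)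
        (fun v => le_abs_self _)
  exact h4.trans (h1.trans (le_abs_self C))

end

end Pool.Agent.U187.NS
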