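import Pool.Agent.Y722.EP.Defs
import Pool.Agent.U187.MF.Defs

/-!
# The spectrum of a variety on the newforms of weight two: definitions

`K` is a number field, and a variety over `K` is given by its equations, its dimension and its first
and second Betti numbers.  `f x`, `x ∈ Ω`, are newforms of weight two.
-/

set_option autoImplicit false

namespace Pool.Agent.U187.NS

open NumberField IsDedekindDomain Filter Topology Polynomial CongruenceSubgroup
open scoped MatrixGroups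
open Pool.Agent.W165.RS (ac)
open Pool.Agent.W353.EF (IsFrobenius)

/-- The data of a projective variety over `K`: the equations, the dimension (at least one) and the
first and the second Betti number. -/
structure VarK (K : Type) [Field K] where
  vars : ℕ
  eqs : Set (MvPolynomial (Fin vars) (𝓞 K))
  dim : ℕ
  dim_pos : 1 ≤ dim
  b₁ : ℕ
  b₂ : ℕ

section
variable {K : Type} [Field K] [NumberField K]

/-- The polynomials `B v` are the Euler factors of `L₂(s, Y) = L(H²(Y), s)`: for almost all primes `v`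
of `K`, `B_v(z) = ∏ (1 - γ_k z)`, `γ_k` the eigenvalues of Frobenius at `v` on `H²(Y)`.  At the other
primes `B v` is an arbitrary polynomial, and no factor `1 / B_v(q_v^{-s})` has a pole at `s = 2`. -/
def IsL₂ (Y : VarK K) (B : HeightOneSpectrum (𝓞 K) → ℂ[X]) : Prop :=
  Pool.Agent.W353.EF.IsEulerSystem Y.eqs Y.dim 2 Y.b₂ B

/-- The polynomials `B v` are the Euler factors of `L₂(s, Y × Z) = L(H²(Y × Z), s)`, `Y` and `Z`
geometrically connected: for almost all `v`, if `α_k, γ_k` are the eigenvalues of Frobenius at `v` on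
`H¹(Y), H²(Y)` and `α'_l, γ'_l` those on `H¹(Z), H²(Z)`, then
`B_v(z) = ∏ (1 - γ_k z) ∏ (1 - γ'_l z) ∏ ∏ (1 - α_k α'_l z)` (formula of Künneth).  At the other
primes `B v` is an arbitrary polynomial, and no factor `1 / B_v(q_v^{-s})` has a pole at `s = 2`. -/
def IsL₂Product (Y Z : VarK K) (B : HeightOneSpectrum (𝓞 K) → ℂ[X]) : Prop :=
  (∀ᶠ v in cofinite, ∃ (α : Fin Y.b₁ → ℂ) (γ : Fin Y.b₂ → ℂ) (α' : Fin Z.b₁ → ℂ)
    (γ' : Fin Z.b₂ → ℂ),
    IsFrobenius Y.eqs Y.dim 1 v α ∧ IsFrobenius Y.eqs Y.dim 2 v γ ∧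
    IsFrobenius Z.eqs Z.dim 1 v α' ∧ IsFrobenius Z.eqs Z.dim 2 v γ' ∧
    ∀ z : ℂ, (B v).eval z =
      (∏ k, (1 - γ k * z)) * (∏ l, (1 - γ' l * z)) * ∏ k, ∏ l, (1 - α k * α' l * z)) ∧
  ∀ v, (B v).eval ((Ideal.absNorm v.asIdeal : ℂ) ^ (-(((2 : ℕ) : ℂ) / 2 + 1))) ≠ 0

/-- The polynomials `B v` are the Euler factors of `L(H¹(Y) ⊗ H¹(Y), s)`:
`B_v(z) = ∏ ∏ (1 - α_k α_l z)` for almost all `v`; the others are arbitrary, without a pole of
`1 / B_v(q_v^{-s})` at `s = 2`. -/
def IsSquare (Y : VarK K) (B : HeightOneSpectrum (𝓞 K) → ℂ[X]) : Prop :=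
  (∀ᶠ v in cofinite, ∃ α : Fin Y.b₁ → ℂ, IsFrobenius Y.eqs Y.dim 1 v α ∧
    ∀ z : ℂ, (B v).eval z = ∏ k, ∏ l, (1 - α k * α l * z)) ∧
  ∀ v, (B v).eval ((Ideal.absNorm v.asIdeal : ℂ) ^ (-(((2 : ℕ) : ℂ) / 2 + 1))) ≠ 0

/-- `H¹(Z)` is a sum of newforms: its dimension is `2 ∑_x m(x)`, and for almost all primes `v` of `K`
whose norm is a prime number `p`, the trace of Frobenius at `v` on `H¹(Z)` is `∑_x m(x) a_p(f_x)`.  By
the theorems of Chebotarev and Faltings this means that `H¹(Z)` is the sum of the restrictions to `K`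
of the Galois representations of the newforms `f_x`, with multiplicities `m(x)`; so the Albanese
variety of `Z` is isogenous over `K` to a factor of a power of the Jacobian of a modular curve. -/
def IsNewformSum {Ω : Type} {L : Ω → ℕ}
    (f : ∀ x, CuspForm (Gamma0 (L x) : Subgroup (GL (Fin 2) ℝ)) 2) (Z : VarK K) (m : Ω →₀ ℕ) :
    Prop :=
  Z.b₁ = 2 * (m.sum fun _ k => k) ∧
  ∀ᶠ v : HeightOneSpectrum (𝓞 K) in cofinite, ∀ p : Nat.Primes,
    Ideal.absNorm v.asIdeal = p → ∃ α : Fin Z.b₁ → ℂ, IsFrobenius Z.eqs Z.dim 1 v α ∧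
      ∑ k, α k = m.sum fun x k => (k : ℂ) * ac (f x) p

end

end Pool.Agent.U187.NS
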