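import Pool.Agent.U187.NS.Base
import Pool.Agent.U187.NS.Defs

/-! The size of `L₂` of a product of two varieties over a number field. -/

set_option autoImplicit false

namespace Pool.Agent.U187.NS

open Complex Filter Topology NumberField IsDedekindDomain Polynomial CongruenceSubgroup
open scoped MatrixGroups
open Pool.Agent.W540.BE Pool.Agent.W353.L1 Pool.Agent.W401.Cheb
open Pool.Agent.H341R2 (lam lam_tendsto)
open Pool.Agent.H921R2.TatePole (kerPrime C0)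
open Pool.Agent.W353.PV (Eig alp tF pick_spec)
open Pool.Agent.W353.EF (IsFrobenius LFun size)
open Pool.Agent.Y722.EP (size_plain EP_fin prod_unique eig_of half_two nm_w nm_h)
open Pool.Agent.Y722.RS (rc tt rc_eq)
open Pool.Agent.W165.RS (ac)
open Pool.Agent.U187.MF (IsNewforms)

section
variable {K : Type} [Field K] [NumberField K] {Y Z : VarK K}

/-- the eigenvalues on `H²(Y × Z)` -/
noncomputable def de (Y Z : VarK K) (v : HeightOneSpectrum (𝓞 K)) :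
    Fin ((Y.b₂ + Z.b₂) + Y.b₁ * Z.b₁) → ℂ :=
  Fin.append (Fin.append (alp Y.eqs Y.dim 2 Y.b₂ K v) (alp Z.eqs Z.dim 2 Z.b₂ K v))
    fun m => alp Y.eqs Y.dim 1 Y.b₁ K v (finProdFinEquiv.symm m).1 *
      alp Z.eqs Z.dim 1 Z.b₁ K v (finProdFinEquiv.symm m).2

theorem de_prod (v : HeightOneSpectrum (𝓞 K)) (F : ℂ → ℂ) :
    ∏ j, F (de Y Z v j) = (∏ k, F (alp Y.eqs Y.dim 2 Y.b₂ K v k)) *
      (∏ k, F (alp Z.eqs Z.dim 2 Z.b₂ K v k)) *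
      ∏ k, ∏ l, F (alp Y.eqs Y.dim 1 Y.b₁ K v k * alp Z.eqs Z.dim 1 Z.b₁ K v l) := by
  unfold de
  rw [Fin.prod_univ_add, Fin.prod_univ_add]
  simp only [Fin.append_left, Fin.append_right]
  congr 1
  rw [← finProdFinEquiv.prod_comp, Fintype.prod_prod_type]
  simp only [Equiv.symm_apply_apply]

theorem de_sum (v : HeightOneSpectrum (𝓞 K)) :
    ∑ j, de Y Z v j = (∑ k, alp Y.eqs Y.dim 2 Y.b₂ K v k) +
      (∑ k, alp Z.eqs Z.dim 2 Z.b₂ K v k) +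
      (∑ k, alp Y.eqs Y.dim 1 Y.b₁ K v k) * ∑ l, alp Z.eqs Z.dim 1 Z.b₁ K v l := by
  unfold de
  rw [Fin.sum_univ_add, Fin.sum_univ_add]
  simp only [Fin.append_left, Fin.append_right]
  congr 1
  rw [← finProdFinEquiv.sum_comp, Fintype.sum_prod_type, Finset.sum_mul_sum]
  simp only [Equiv.symm_apply_apply]

theorem de_all (v : HeightOneSpectrum (𝓞 K)) {P : ℂ → Prop}
    (h1 : ∀ k, P (alp Y.eqs Y.dim 2 Y.b₂ K v k)) (h2 : ∀ k, P (alp Z.eqs Z.dim 2 Z.b₂ K v k))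
    (h3 : ∀ k l, P (alp Y.eqs Y.dim 1 Y.b₁ K v k * alp Z.eqs Z.dim 1 Z.b₁ K v l))
    (j : Fin ((Y.b₂ + Z.b₂) + Y.b₁ * Z.b₁)) : P (de Y Z v j) := by
  unfold de
  refine Fin.addCases (fun j => ?_) (fun j => ?_) j
  · rw [Fin.append_left]
    refine Fin.addCases (fun j => ?_) (fun j => ?_) j
    · rw [Fin.append_left]; exact h1 j
    · rw [Fin.append_right]; exact h2 j
  · rw [Fin.append_right]; exact h3 _ _

/-- good primes -/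
structure Good (Y Z : VarK K) (v : HeightOneSpectrum (𝓞 K)) : Prop where
  y1 : Eig Y.eqs Y.dim 1 v (alp Y.eqs Y.dim 1 Y.b₁ K v)
  y2 : Eig Y.eqs Y.dim 2 v (alp Y.eqs Y.dim 2 Y.b₂ K v)
  z1 : Eig Z.eqs Z.dim 1 v (alp Z.eqs Z.dim 1 Z.b₁ K v)
  z2 : Eig Z.eqs Z.dim 2 v (alp Z.eqs Z.dim 2 Z.b₂ K v)

theorem one_le_two (Y : VarK K) : 1 ≤ 2 * Y.dim := by
  have := Y.dim_pos
  omega

theorem two_le_two (Y : VarK K) : 2 ≤ 2 * Y.dim := by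
  have := Y.dim_pos
  omega

theorem Good.norm {v : HeightOneSpectrum (𝓞 K)} (hg : Good Y Z v)
    (j : Fin ((Y.b₂ + Z.b₂) + Y.b₁ * Z.b₁)) :
    ‖de Y Z v j‖ = (nm K v : ℝ) ^ (((2 : ℕ) : ℝ) / 2) := by
  have hss : Real.sqrt (nm K v) * Real.sqrt (nm K v) = nm K v :=
    Real.mul_self_sqrt (Nat.cast_nonneg _)
  refine de_all (P := fun z => ‖z‖ = (nm K v : ℝ) ^ (((2 : ℕ) : ℝ) / 2)) v
    (fun j => hg.y2.norm j) (fun j => hg.z2.norm j) (fun k l => ?_) j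
  have h1 : ‖alp Y.eqs Y.dim 1 Y.b₁ K v k‖ = (nm K v : ℝ) ^ (((1 : ℕ) : ℝ) / 2) := hg.y1.norm k
  have h2 : ‖alp Z.eqs Z.dim 1 Z.b₁ K v l‖ = (nm K v : ℝ) ^ (((1 : ℕ) : ℝ) / 2) := hg.z1.norm l
  rw [norm_mul, h1, h2, nm_w, nm_h, hss]

theorem Good.im {v : HeightOneSpectrum (𝓞 K)} (hg : Good Y Z v) : (∑ j, de Y Z v j).im = 0 := by
  rw [de_sum, Complex.add_im, Complex.add_im, hg.y2.im (two_le_two Y), hg.z2.im (two_le_two Z),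
    Complex.mul_im, hg.y1.im (one_le_two Y), hg.z1.im (one_le_two Z)]
  ring

/-- the decomposition of the trace -/
theorem Good.trace {v : HeightOneSpectrum (𝓞 K)} (hg : Good Y Z v) :
    tr (((2 : ℕ) : ℝ) / 2) (de Y Z) v =
      tF Y.eqs Y.dim 2 Y.b₂ K v + tF Z.eqs Z.dim 2 Z.b₂ K v +
        tF Y.eqs Y.dim 1 Y.b₁ K v * tF Z.eqs Z.dim 1 Z.b₁ K v := by
  have hq : (0 : ℝ) < nm K v := by
    have := two_le_nm v
    exact_mod_cast (by omega : 0 < nm K v)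
  have hss : Real.sqrt (nm K v) * Real.sqrt (nm K v) = nm K v :=
    Real.mul_self_sqrt hq.le
  unfold tF tr
  rw [if_pos ⟨hg.norm, hg.im⟩, if_pos ⟨fun j => hg.y2.norm j, hg.y2.im (two_le_two Y)⟩,
    if_pos ⟨fun j => hg.z2.norm j, hg.z2.im (two_le_two Z)⟩,
    if_pos ⟨fun j => hg.y1.norm j, hg.y1.im (one_le_two Y)⟩,
    if_pos ⟨fun j => hg.z1.norm j, hg.z1.im (one_le_two Z)⟩, Real.rpow_neg hq.le,
    Real.rpow_neg hq.le, nm_w, nm_h, de_sum, Complex.add_re, Complex.add_re,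
    Complex.mul_re, hg.y1.im (one_le_two Y), zero_mul, sub_zero]
  rw [show ((nm K v : ℝ))⁻¹ = (Real.sqrt (nm K v))⁻¹ * (Real.sqrt (nm K v))⁻¹ by
    rw [← mul_inv, hss]]
  ring

/-- the size of `L₂(s, Y)` -/
theorem base {B₀ : HeightOneSpectrum (𝓞 K) → ℂ[X]} (h₀ : IsL₂ Y B₀) :
    (∀ᶠ ε : ℝ in 𝓝[>] 0, LFun B₀ (((2 : ℕ) : ℂ) / 2 + 1 + ε) ≠ 0) ∧
    Tendsto (fun ε : ℝ => (EP (nm K) ε fun v => tF Y.eqs Y.dim 2 Y.b₂ K v) / lam ε -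
      size 2 B₀ ε) (𝓝[>] 0) (𝓝 0) := by
  have hg0 : ∀ᶠ v in cofinite, Eig Y.eqs Y.dim 2 v (alp Y.eqs Y.dim 2 Y.b₂ K v) ∧
      ∀ z : ℂ, (B₀ v).eval z = ∏ j, (1 - alp Y.eqs Y.dim 2 Y.b₂ K v j * z) := by
    refine h₀.1.mono fun v hv => ?_
    obtain ⟨γ, h1, h2⟩ := hv
    refine ⟨pick_spec ⟨γ, h1⟩, fun z => ?_⟩
    rw [h2 z]
    exact prod_unique (i := 2) (two_le_two Y) (eig_of h1) fun y => (1 - y * z)
  have hS0 := size_plain (((2 : ℕ) : ℝ) / 2) (alp Y.eqs Y.dim 2 Y.b₂ K) B₀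
    (hg0.mono fun v hv => ⟨⟨fun j => hv.1.norm j, hv.1.im (two_le_two Y)⟩, hv.2⟩) (by
      rw [half_two]
      exact h₀.2)
  rw [half_two] at hS0
  exact hS0

/-- the size of `L(H¹(Y) ⊗ H¹(Y), s)` -/
theorem square {B₂ : HeightOneSpectrum (𝓞 K) → ℂ[X]} (h₂ : IsSquare Y B₂) :
    (∀ᶠ ε : ℝ in 𝓝[>] 0, LFun B₂ (((2 : ℕ) : ℂ) / 2 + 1 + ε) ≠ 0) ∧
    Tendsto (fun ε : ℝ => (EP (nm K) ε fun v => tF Y.eqs Y.dim 1 Y.b₁ K v ^ 2) / lam ε -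
      size 2 B₂ ε) (𝓝[>] 0) (𝓝 0) := by
  set α : HeightOneSpectrum (𝓞 K) → Fin (Y.b₁ * Y.b₁) → ℂ := fun v m =>
    alp Y.eqs Y.dim 1 Y.b₁ K v (finProdFinEquiv.symm m).1 *
      alp Y.eqs Y.dim 1 Y.b₁ K v (finProdFinEquiv.symm m).2 with hα
  have hprod : ∀ (v : HeightOneSpectrum (𝓞 K)) (F : ℂ → ℂ), ∏ m, F (α v m) =
      ∏ k, ∏ l, F (alp Y.eqs Y.dim 1 Y.b₁ K v k * alp Y.eqs Y.dim 1 Y.b₁ K v l) := by
    intro v F
    rw [← finProdFinEquiv.prod_comp, Fintype.prod_prod_type]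
    simp only [hα, Equiv.symm_apply_apply]
  have hsum : ∀ v : HeightOneSpectrum (𝓞 K),
      ∑ m, α v m = (∑ k, alp Y.eqs Y.dim 1 Y.b₁ K v k) ^ 2 := by
    intro v
    rw [← finProdFinEquiv.sum_comp, Fintype.sum_prod_type, sq, Finset.sum_mul_sum]
    simp only [hα, Equiv.symm_apply_apply]
  have hg : ∀ᶠ v in cofinite, Eig Y.eqs Y.dim 1 v (alp Y.eqs Y.dim 1 Y.b₁ K v) ∧
      ∀ z : ℂ, (B₂ v).eval z = ∏ m, (1 - α v m * z) := by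
    refine h₂.1.mono fun v hv => ?_
    obtain ⟨γ, h1, h2⟩ := hv
    refine ⟨pick_spec ⟨γ, h1⟩, fun z => ?_⟩
    rw [h2 z, hprod v fun y => 1 - y * z]
    have e1 : ∀ k, ∏ l, (1 - γ k * γ l * z) =
        ∏ l, (1 - γ k * alp Y.eqs Y.dim 1 Y.b₁ K v l * z) :=
      fun k => prod_unique (one_le_two Y) (eig_of h1) fun y => (1 - γ k * y * z)
    rw [Finset.prod_congr rfl fun k _ => e1 k]
    exact prod_unique (one_le_two Y) (eig_of h1)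
      fun y => ∏ l, (1 - y * alp Y.eqs Y.dim 1 Y.b₁ K v l * z)
  have hre : ∀ {v : HeightOneSpectrum (𝓞 K)}, Eig Y.eqs Y.dim 1 v (alp Y.eqs Y.dim 1 Y.b₁ K v) →
      (∑ m, α v m).im = 0 := by
    intro v hv
    rw [hsum, sq, Complex.mul_im, hv.im (one_le_two Y)]
    ring
  have hnorm : ∀ {v : HeightOneSpectrum (𝓞 K)}, Eig Y.eqs Y.dim 1 v (alp Y.eqs Y.dim 1 Y.b₁ K v) →
      ∀ m, ‖α v m‖ = (nm K v : ℝ) ^ (((2 : ℕ) : ℝ) / 2) := by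
    intro v hv m
    have hss : Real.sqrt (nm K v) * Real.sqrt (nm K v) = nm K v :=
      Real.mul_self_sqrt (Nat.cast_nonneg _)
    have h1 : ∀ k, ‖alp Y.eqs Y.dim 1 Y.b₁ K v k‖ = (nm K v : ℝ) ^ (((1 : ℕ) : ℝ) / 2) :=
      fun k => hv.norm k
    rw [hα]
    simp only
    rw [norm_mul, h1, h1, nm_w, nm_h, hss]
  have hS := size_plain (((2 : ℕ) : ℝ) / 2) α B₂
    (hg.mono fun v hv => ⟨⟨hnorm hv.1, hre hv.1⟩, hv.2⟩) (by
      rw [half_two]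
      exact h₂.2)
  rw [half_two] at hS
  refine ⟨hS.1, ?_⟩
  have hb1 : ∀ v, |tr (((2 : ℕ) : ℝ) / 2) α v| ≤ ((Y.b₁ * Y.b₁ : ℕ) : ℝ) :=
    fun v => abs_tr_le _ α v
  have hb2 : ∀ v, |tF Y.eqs Y.dim 1 Y.b₁ K v ^ 2| ≤ (Y.b₁ : ℝ) ^ 2 := fun v => by
    rw [abs_pow]
    exact pow_le_pow_left₀ (abs_nonneg _) (abs_tr_le _ _ _) 2
  have hN : NormSys (nm K) := normSys
  have hφ0 := EP_fin (φ := fun v => tF Y.eqs Y.dim 1 Y.b₁ K v ^ 2 +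
      (-1) * (tr (((2 : ℕ) : ℝ) / 2) α v))
    (B := (Y.b₁ : ℝ) ^ 2 + ((Y.b₁ * Y.b₁ : ℕ) : ℝ)) (fun v => (abs_add_le _ _).trans
      (add_le_add (hb2 v) (by
      rw [abs_mul, abs_neg, abs_one, one_mul]; exact hb1 v))) (hg.mono fun v hv => by
      have hq : (0 : ℝ) < nm K v := by
        have := two_le_nm v
        exact_mod_cast (by omega : 0 < nm K v)
      have hss : Real.sqrt (nm K v) * Real.sqrt (nm K v) = nm K v :=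
        Real.mul_self_sqrt hq.le
      have h1 : ∀ k, ‖alp Y.eqs Y.dim 1 Y.b₁ K v k‖ = (nm K v : ℝ) ^ (((1 : ℕ) : ℝ) / 2) :=
        fun k => hv.1.norm k
      unfold tF tr
      rw [if_pos ⟨h1, hv.1.im (one_le_two Y)⟩, if_pos ⟨hnorm hv.1, hre hv.1⟩, hsum]
      have e2 : ((∑ k, alp Y.eqs Y.dim 1 Y.b₁ K v k) ^ 2).re =
          (∑ k, alp Y.eqs Y.dim 1 Y.b₁ K v k).re ^ 2 := by
        rw [sq, Complex.mul_re, hv.1.im (one_le_two Y)]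
        ring
      rw [e2, Real.rpow_neg hq.le, Real.rpow_neg hq.le, nm_w, nm_h]
      rw [show ((nm K v : ℝ))⁻¹ = (Real.sqrt (nm K v))⁻¹ * (Real.sqrt (nm K v))⁻¹ by
        rw [← mul_inv, hss]]
      ring)
  have h1 := hφ0.add hS.2
  rw [add_zero] at h1
  refine h1.congr' ?_
  filter_upwards [self_mem_nhdsWithin] with ε hε
  have hε' : (0 : ℝ) < ε := hε
  rw [EP_add hN hε' hb2 (φ := fun v => tF Y.eqs Y.dim 1 Y.b₁ K v ^ 2)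
    (ψ := fun v => (-1) * (tr (((2 : ℕ) : ℝ) / 2) α v)) (B' := ((Y.b₁ * Y.b₁ : ℕ) : ℝ)) (fun v => by
      rw [abs_mul, abs_neg, abs_one, one_mul]; exact hb1 v), EP_const_mul]
  unfold size
  ring

/-- the mean square is at most the square of the Betti number -/
theorem square_le (Y : VarK K) {η : ℝ} (hη : 0 < η) : ∀ᶠ ε : ℝ in 𝓝[>] 0,
    (EP (nm K) ε fun v => tF Y.eqs Y.dim 1 Y.b₁ K v ^ 2) / lam ε ≤ (Y.b₁ : ℝ) ^ 2 + η := by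
  have hN : NormSys (nm K) := normSys
  have hb : ∀ v, |tF Y.eqs Y.dim 1 Y.b₁ K v ^ 2| ≤ (Y.b₁ : ℝ) ^ 2 := fun v => by
    rw [abs_pow]
    exact pow_le_pow_left₀ (abs_nonneg _) (abs_tr_le _ _ _) 2
  have l1 : Tendsto (fun ε : ℝ => (Y.b₁ : ℝ) ^ 2 * ((EP (nm K) ε fun _ => 1) / lam ε)) (𝓝[>] 0)
      (𝓝 ((Y.b₁ : ℝ) ^ 2 * 1)) := (EP_one K).const_mul _
  rw [mul_one] at l1
  filter_upwards [l1.eventually_lt_const (show (Y.b₁ : ℝ) ^ 2 < (Y.b₁ : ℝ) ^ 2 + η by linarith),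
    lam_tendsto.eventually_gt_atTop 0, self_mem_nhdsWithin] with ε h3 h4 h5
  have hε : (0 : ℝ) < ε := h5
  have h6 := (le_abs_self _).trans (Pool.Agent.Y149.CR.abs_EP_le hN hε hb)
  have h7 : (EP (nm K) ε fun v => tF Y.eqs Y.dim 1 Y.b₁ K v ^ 2) / lam ε ≤
      (Y.b₁ : ℝ) ^ 2 * ((EP (nm K) ε fun _ => 1) / lam ε) := by
    rw [← mul_div_assoc]
    exact div_le_div_of_nonneg_right h6 h4.le
  linarith

/-- **The size of `L(H¹(Y) ⊗ H¹(Z))`.** -/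
theorem link {B₀ B' B : HeightOneSpectrum (𝓞 K) → ℂ[X]}
    (h₀ : IsL₂ Y B₀) (h' : IsL₂ Z B') (hB : IsL₂Product Y Z B) :
    (∀ᶠ ε : ℝ in 𝓝[>] 0, LFun B (((2 : ℕ) : ℂ) / 2 + 1 + ε) ≠ 0) ∧
    Tendsto (fun ε : ℝ => (EP (nm K) ε fun v =>
      tF Y.eqs Y.dim 1 Y.b₁ K v * tF Z.eqs Z.dim 1 Z.b₁ K v) / lam ε -
      (size 2 B ε - size 2 B₀ ε - size 2 B' ε)) (𝓝[>] 0) (𝓝 0) := by
  -- the good primes
  have hg : ∀ᶠ v in cofinite, Good Y Z v ∧ ∀ z : ℂ,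
      (B v).eval z = ∏ j, (1 - de Y Z v j * z) := by
    filter_upwards [hB.1] with v hv
    obtain ⟨α, γ, α', γ', h3, h4, h5, h6, h7⟩ := hv
    refine ⟨⟨pick_spec ⟨α, h3⟩, pick_spec ⟨γ, h4⟩, pick_spec ⟨α', h5⟩, pick_spec ⟨γ', h6⟩⟩,
      fun z => ?_⟩
    have e2 := prod_unique (i := 2) (two_le_two Y) (eig_of h4) fun y => (1 - y * z)
    have e3 := prod_unique (i := 2) (two_le_two Z) (eig_of h6) fun y => (1 - y * z)
    have e4 : ∀ k, ∏ l, (1 - α k * α' l * z) =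
        ∏ l, (1 - α k * alp Z.eqs Z.dim 1 Z.b₁ K v l * z) :=
      fun k => prod_unique (i := 1) (one_le_two Z) (eig_of h5) fun y => (1 - α k * y * z)
    have e5 := prod_unique (i := 1) (one_le_two Y) (eig_of h3)
      fun y => ∏ l, (1 - y * alp Z.eqs Z.dim 1 Z.b₁ K v l * z)
    rw [h7 z, de_prod v fun y => 1 - y * z, e2, e3, Finset.prod_congr rfl fun k _ => e4 k, e5]
  have hS := size_plain (((2 : ℕ) : ℝ) / 2) (de Y Z) B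
    (hg.mono fun v hv => ⟨⟨hv.1.norm, hv.1.im⟩, hv.2⟩) (by
      rw [half_two]
      exact hB.2)
  have hS0 := base h₀
  have hS1 := base h'
  rw [half_two] at hS
  refine ⟨hS.1, ?_⟩
  have hN : NormSys (nm K) := normSys
  -- the difference of the traces
  set f2 : HeightOneSpectrum (𝓞 K) → ℝ := fun v => tF Y.eqs Y.dim 2 Y.b₂ K v with hf2
  set f0 : HeightOneSpectrum (𝓞 K) → ℝ := fun v => tF Z.eqs Z.dim 2 Z.b₂ K v with hf0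
  set f1 : HeightOneSpectrum (𝓞 K) → ℝ := fun v =>
    tF Y.eqs Y.dim 1 Y.b₁ K v * tF Z.eqs Z.dim 1 Z.b₁ K v with hf1
  set f3 : HeightOneSpectrum (𝓞 K) → ℝ := fun v => tr (((2 : ℕ) : ℝ) / 2) (de Y Z) v with hf3
  have hb1 : ∀ v, |f2 v| ≤ (Y.b₂ : ℝ) := fun v => abs_tr_le _ _ _
  have hb0 : ∀ v, |f0 v| ≤ (Z.b₂ : ℝ) := fun v => abs_tr_le _ _ _
  have hb2 : ∀ v, |f1 v| ≤ (Y.b₁ : ℝ) * Z.b₁ := by
    intro v
    rw [hf1]
    simp only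
    rw [abs_mul]
    exact mul_le_mul (abs_tr_le _ _ _) (abs_tr_le _ _ _) (abs_nonneg _) (Nat.cast_nonneg _)
  have hb3 : ∀ v, |f3 v| ≤ (((Y.b₂ + Z.b₂) + Y.b₁ * Z.b₁ : ℕ) : ℝ) := fun v => abs_tr_le _ _ _
  have hb5 : ∀ v, |f0 v + f1 v| ≤ (Z.b₂ : ℝ) + (Y.b₁ : ℝ) * Z.b₁ := fun v =>
    (abs_add_le _ _).trans (add_le_add (hb0 v) (hb2 v))
  have hb6 : ∀ v, |f2 v + (f0 v + f1 v)| ≤ (Y.b₂ : ℝ) + ((Z.b₂ : ℝ) + (Y.b₁ : ℝ) * Z.b₁) :=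
    fun v => (abs_add_le _ _).trans (add_le_add (hb1 v) (hb5 v))
  have hb7 : ∀ v, |(-1) * (f2 v + (f0 v + f1 v))| ≤
      (Y.b₂ : ℝ) + ((Z.b₂ : ℝ) + (Y.b₁ : ℝ) * Z.b₁) := fun v => by
    rw [abs_mul, abs_neg, abs_one, one_mul]
    exact hb6 v
  have hφ0 := EP_fin (φ := fun v => f3 v + (-1) * (f2 v + (f0 v + f1 v)))
    (fun v => (abs_add_le _ _).trans (add_le_add (hb3 v) (hb7 v))) (hg.mono fun v hv => by
      rw [hf3, hf2, hf0, hf1]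
      simp only
      rw [hv.1.trace]
      ring)
  have h1 := ((hS.2.sub hS0.2).sub hS1.2).sub hφ0
  have e0 : (0 : ℝ) - 0 - 0 - 0 = 0 := by norm_num
  rw [e0] at h1
  refine h1.congr' ?_
  filter_upwards [self_mem_nhdsWithin] with ε hε
  have hε' : (0 : ℝ) < ε := hε
  have e2 : EP (nm K) ε (fun v => f3 v + (-1) * (f2 v + (f0 v + f1 v))) =
      EP (nm K) ε f3 - (EP (nm K) ε f2 + (EP (nm K) ε f0 + EP (nm K) ε f1)) := by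
    rw [EP_add hN hε' hb3 hb7, EP_const_mul, EP_add hN hε' hb1 hb5, EP_add hN hε' hb0 hb2]
    ring
  rw [e2]
  unfold size
  ring

end

end Pool.Agent.U187.NS
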